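import Pool.Agent.W_4481e3_q87.LeafOK
import Pool.Agent.W_4481e3_h58.RdrSnd
import Pool.Agent.W_4481e3_h6.GsFin

/-!
Kill certificate, format RT: the leaves of a table (all hypotheses proved).
-/

namespace Pool.Agent.W_4481e3_q25.EvR

theorem leafOK {T : ℕ} (hT : TabOK T) : LeafOK T :=
  ⟨Pool.Agent.W_4481e3_h58.Hdr.tp0_sound, Pool.Agent.W_4481e3_h58.Hdr.tp3_sound,
    Pool.Agent.W_4481e3_h6.Ev.gsOK, hT⟩

end Pool.Agent.W_4481e3_q25.EvR
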