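import Pool.Agent.W_4481e3_q87.FamA

/-!
The final limit passage for `L = 2`: existence of the one sided family over the orbit of `1/15`.
-/

open MeasureTheory Filter Topology Set

namespace Pool.Agent.W_MP_4481e3_an

variable {α : ℂ}

/-- rescaled orbit seen from the point `s` of the disc at time `n`, after `j` more steps -/
noncomputable def famF (α z : ℂ) (u s : ℝ) (j n : ℕ) (t : ℝ) : ℂ :=
  leafV α z u (n + j) ((2 ^ j * s + t : ℝ) : ℂ)

lemma famF_arg {r0 s t : ℝ} {j : ℕ} (hs : |s| ≤ r0 / 4) (ht : |t| ≤ r0 / 2 * 2 ^ j) :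
    |2 ^ j * s + t| ≤ 3 / 4 * r0 * 2 ^ j := by
  have h2 : (0:ℝ) < 2 ^ j := by positivity
  refine (abs_add_le _ _).trans ?_
  rw [abs_mul, abs_of_pos h2]
  nlinarith

/-- Lipschitz constant on the window, for each fixed time -/
lemma famF_lip (hα : ‖α‖ ≤ 1) {r0 : ℝ} (hr0 : 0 < r0) (hr1 : r0 ≤ 1) (z : ℂ) (u s : ℝ)
    (hs : |s| ≤ r0 / 4) (j : ℕ) :
    ∃ K : ℝ, 0 ≤ K ∧ ∀ n, Tame α (leafV α z u n) r0 → ∀ x y : ℝ, |x| ≤ r0 / 2 * 2 ^ j →
      |y| ≤ r0 / 2 * 2 ^ j → ‖famF α z u s j n x - famF α z u s j n y‖ ≤ K * |x - y| := by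
  obtain ⟨B, hB1, hB⟩ := pre_bound hα hr1 z u j
  have h2 : (0:ℝ) < 2 ^ j := by positivity
  have hr : 0 < r0 * 2 ^ j / 4 := by positivity
  refine ⟨B / (r0 * 2 ^ j / 4), by positivity, fun n hn x y hx hy => ?_⟩
  have h := lip_of_bd (leafV_diff α z u (n + j)) hr (hB n hn)
    (x := ((2 ^ j * s + x : ℝ) : ℂ)) (y := ((2 ^ j * s + y : ℝ) : ℂ)) (by
      rw [Complex.norm_real, Real.norm_eq_abs]
      have := famF_arg hs hx
      linarith) (by
      rw [Complex.norm_real, Real.norm_eq_abs]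
      have := famF_arg hs hy
      linarith)
  unfold famF
  refine h.trans (le_of_eq ?_)
  rw [← Complex.ofReal_sub, Complex.norm_real, Real.norm_eq_abs]
  congr 2
  ring

/-- Taylor expansion of order one on the window -/
lemma famF_c11 (hα : ‖α‖ ≤ 1) {r0 : ℝ} (hr0 : 0 < r0) (hr1 : r0 ≤ 1) (z : ℂ) (u s : ℝ)
    (hs : |s| ≤ r0 / 4) (j : ℕ) :
    ∃ D C : ℝ, 0 ≤ C ∧ ∀ n, Tame α (leafV α z u n) r0 → ∃ a : ℂ, ‖a‖ ≤ D ∧
      ∀ x : ℝ, |x| ≤ r0 / 2 * 2 ^ j →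
      ‖famF α z u s j n x - famF α z u s j n 0 - a * x‖ ≤ C * x ^ 2 := by
  obtain ⟨B, hB1, hB⟩ := pre_bound hα hr1 z u j
  have h2 : (0:ℝ) < 2 ^ j := by positivity
  have hr : 0 < r0 * 2 ^ j / 8 := by positivity
  have hs2 : |2 ^ j * s| ≤ r0 / 4 * 2 ^ j := by
    rw [abs_mul, abs_of_pos h2]; nlinarith
  refine ⟨B / (r0 * 2 ^ j / 8), B / (r0 * 2 ^ j / 8) / (r0 * 2 ^ j / 8), by positivity,
    fun n hn => ⟨deriv (leafV α z u (n + j)) ((2 ^ j * s : ℝ) : ℂ), ?_, fun x hx => ?_⟩⟩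
  · apply deriv_bd (leafV_diff α z u (n + j)) hr (hB n hn)
    rw [Complex.norm_real, Real.norm_eq_abs]
    nlinarith
  · have h := c11_of_bd (leafV_diff α z u (n + j)) hr (hB n hn)
      (x := ((2 ^ j * s : ℝ) : ℂ)) (t := (x : ℂ)) (by
        rw [Complex.norm_real, Real.norm_eq_abs, Complex.norm_real, Real.norm_eq_abs]
        nlinarith)
    unfold famF
    rw [Complex.norm_real, Real.norm_eq_abs, sq_abs] at h
    rw [add_zero, Complex.ofReal_add]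
    exact h

/-- one step of the recursion for the rescaled orbits -/
lemma famF_rec (z : ℂ) (u s : ℝ) (j n : ℕ) (t : ℝ) :
    famF α z u s (j + 1) n (2 * t) = famF α z u s j n t +
      α * (Real.cos (2 * Real.pi * (2 ^ j * (Int.fract (2 ^ n * u) + s) + t)) : ℂ) *
        famF α z u s j n t * (1 - famF α z u s j n t) := by
  have h := (leafV_chain α z u n).recur j ((2 ^ j * s + t : ℝ) : ℂ)
  unfold famF
  have e1 : ((2 ^ (j + 1) * s + 2 * t : ℝ) : ℂ) = 2 * ((2 ^ j * s + t : ℝ) : ℂ) := by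
    push_cast; ring
  rw [e1]
  rw [h]
  have e2 : Complex.cos (2 * Real.pi * (2 ^ j * ((2 ^ n * u : ℝ) : ℂ) + ((2 ^ j * s + t : ℝ) : ℂ))) =
      (Real.cos (2 * Real.pi * (2 ^ j * (Int.fract (2 ^ n * u) + s) + t)) : ℂ) := by
    have h1 : (2 * Real.pi * (2 ^ j * ((2 ^ n * u : ℝ) : ℂ) + ((2 ^ j * s + t : ℝ) : ℂ)) : ℂ) =
        ((2 * Real.pi * (2 ^ j * (Int.fract (2 ^ n * u) + s) + t) +
          ((2 ^ j * ⌊(2:ℝ) ^ n * u⌋ : ℤ) : ℝ) * (2 * Real.pi) : ℝ) : ℂ) := by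
      have h2 : (2:ℝ) ^ n * u = Int.fract (2 ^ n * u) + (⌊(2:ℝ) ^ n * u⌋ : ℝ) := by
        rw [add_comm]; exact (Int.floor_add_fract _).symm
      have h3 : (2 * Real.pi * (2 ^ j * (2 ^ n * u) + (2 ^ j * s + t)) : ℝ) =
          2 * Real.pi * (2 ^ j * (Int.fract (2 ^ n * u) + s) + t) +
          ((2 ^ j * ⌊(2:ℝ) ^ n * u⌋ : ℤ) : ℝ) * (2 * Real.pi) := by
        conv_lhs => rw [h2]
        push_cast
        ring
      rw [← h3]
      push_cast
      ring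
    rw [h1, ← Complex.ofReal_cos, Real.cos_add_int_mul_two_pi]
  rw [e2]

/-- **Existence of the family.** -/
theorem exists_fam2 (hα0 : α ≠ 0) (hα : ‖α‖ < 1) (h0 : ∫ x in (0:ℝ)..1, logf α x < 0)
    (h1 : ∫ x in (0:ℝ)..1, logf (-α) x < 0) {z : ℂ} (hT : TameStmt α z)
    (hm : volume (Fall α 2 z)ᶜ ≠ 0) :
    ∃ (ρ A K : ℝ) (V : ℕ → ℝ → ℂ), Fam2 (α / 2) ρ A K V := by
  obtain ⟨u, -, hd, r1, hr1, hfreq1⟩ := hT hm
  set r0 : ℝ := min r1 1 with hr0def
  have hr0 : 0 < r0 := lt_min hr1 one_pos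
  have hr01 : r0 ≤ 1 := min_le_right _ _
  have hfreq : ∃ᶠ n in (atTop : Filter ℕ), Tame α (leafV α z u n) r0 :=
    hfreq1.mono fun n h => h.mono (min_le_left _ _)
  have hαp : 0 < ‖α‖ := norm_pos_iff.2 hα0
  obtain ⟨ρD, hρD1, hD⟩ := dens_exists hα0 hd
  obtain ⟨A, hA0, hA⟩ := growthW hα.le hD hρD1 hr0 hr01
  have hne : NeBot (atTop ⊓ 𝓟 {n : ℕ | Tame α (leafV α z u n) r0}) :=
    frequently_iff_neBot.1 hfreq
  set U : Ultrafilter ℕ := Ultrafilter.of (atTop ⊓ 𝓟 {n : ℕ | Tame α (leafV α z u n) r0}) with hU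
  have hUle : (U : Filter ℕ) ≤ atTop := (Ultrafilter.of_le _).trans inf_le_left
  have hUT : ∀ᶠ n in (U : Filter ℕ), Tame α (leafV α z u n) r0 :=
    le_principal_iff.1 ((Ultrafilter.of_le _).trans inf_le_right)
  -- the limit base point
  obtain ⟨x0, -, hx0⟩ := (isCompact_Icc (a := (0:ℝ)) (b := 1)).ultrafilter_le_nhds
    (U.map (fun n : ℕ => Int.fract ((2:ℝ) ^ n * u))) (by
      rw [le_principal_iff]
      show (fun n : ℕ => Int.fract ((2:ℝ) ^ n * u)) ⁻¹' _ ∈ U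
      filter_upwards with n
      exact ⟨Int.fract_nonneg _, (Int.fract_lt_one _).le⟩)
  have hx0t : Tendsto (fun n : ℕ => Int.fract ((2:ℝ) ^ n * u)) U (𝓝 x0) := hx0
  -- the point s
  obtain ⟨m, hm2⟩ : ∃ m : ℕ, 2 / r0 < 2 ^ m := pow_unbounded_of_one_lt _ (by norm_num)
  have hpm : (0:ℝ) < 2 ^ m := by positivity
  rw [div_lt_iff₀ hr0] at hm2
  set q : ℤ := round ((2:ℝ) ^ m * x0 - 1 / 15) with hq
  set s : ℝ := (1 / 15 + q) / 2 ^ m - x0 with hs
  have hs1 : 2 ^ m * (x0 + s) = 1 / 15 + q := by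
    rw [hs]; field_simp; ring
  have hs2 : |s| ≤ r0 / 4 := by
    have h2 : 2 ^ m * s = -(((2:ℝ) ^ m * x0 - 1 / 15) - q) := by
      rw [hs]; field_simp; ring
    have h3 := abs_sub_round ((2:ℝ) ^ m * x0 - 1 / 15)
    rw [← hq, ← abs_neg, ← h2, abs_mul, abs_of_pos hpm] at h3
    have h4 : 2 ^ m * |s| ≤ 2 ^ m * (r0 / 4) := by linarith
    exact le_of_mul_le_mul_left h4 hpm
  -- windows
  have hwin : ∀ k : ℕ, r0 / 2 * 2 ^ (m + k) = 2 ^ m * (r0 / 2) * 2 ^ k := by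
    intro k; rw [pow_add]; ring
  have hpack : ∀ k : ℕ, ∃ K : ℝ, 0 ≤ K ∧ ∃ G : ℝ → ℂ,
      (∀ t, |t| ≤ r0 / 2 * 2 ^ (m + k) →
        Tendsto (fun n => famF α z u s (m + k) n t) U (𝓝 (G t))) ∧
      (∀ x t, |x| ≤ r0 / 2 * 2 ^ (m + k) → |t| ≤ r0 / 2 * 2 ^ (m + k) →
        ‖G x - G t‖ ≤ K * |x - t|) ∧
      (∀ (a b R : ℝ) (p : ℂ), -(r0 / 2 * 2 ^ (m + k)) ≤ a → b ≤ r0 / 2 * 2 ^ (m + k) →
        (∀ᶠ n in (U : Filter ℕ), ∃ t ∈ Icc a b, R ≤ ‖famF α z u s (m + k) n t - p‖) →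
        ∃ t ∈ Icc a b, R ≤ ‖G t - p‖) ∧
      (∀ t, |t| ≤ r0 / 2 * 2 ^ (m + k) → ‖G t‖ ≤ Real.exp (A * (31 / 20) ^ (m + k))) := by
    intro k
    obtain ⟨K, hK0, hK⟩ := famF_lip hα.le hr0 hr01 z u s hs2 (m + k)
    obtain ⟨N0, hN0⟩ := hA (m + k)
    have hb : ∀ᶠ n in (U : Filter ℕ), ∀ t, |t| ≤ r0 / 2 * 2 ^ (m + k) →
        ‖famF α z u s (m + k) n t‖ ≤ Real.exp (A * (31 / 20) ^ (m + k)) := by
      filter_upwards [hUle (eventually_ge_atTop N0), hUT] with n hn hn2 t ht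
      exact hN0 n hn hn2 _ (famF_arg hs2 ht)
    have hl : ∀ᶠ n in (U : Filter ℕ), ∀ x t, |x| ≤ r0 / 2 * 2 ^ (m + k) →
        |t| ≤ r0 / 2 * 2 ^ (m + k) →
        ‖famF α z u s (m + k) n x - famF α z u s (m + k) n t‖ ≤ K * |x - t| := by
      filter_upwards [hUT] with n hn x t hx ht
      exact hK n hn x t hx ht
    obtain ⟨G, g1, g2, g3⟩ := fam_pack U (by positivity) hK0 hb hl
    refine ⟨K, hK0, G, g1, g2, g3, fun t ht => ?_⟩
    refine le_of_tendsto (g1 t ht).norm ?_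
    filter_upwards [hb] with n hn
    exact hn t ht
  choose K hK0 G hGt hGl hGn hGb using hpack
  -- the recursion
  have hGr : ∀ (k : ℕ) (t : ℝ), |t| ≤ r0 / 2 * 2 ^ (m + k) → G (k + 1) (2 * t) = G k t +
      α * (Real.cos (2 * Real.pi * (2 ^ k * (1 / 15) + t)) : ℂ) * G k t * (1 - G k t) := by
    intro k t ht
    have e1 := hGt (k + 1) (2 * t) (by
      rw [abs_mul, abs_of_pos (by norm_num : (0:ℝ) < 2), ← add_assoc, pow_succ]
      linarith)
    have ec : Tendsto (fun n : ℕ => (Real.cos (2 * Real.pi * (2 ^ (m + k) *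
        (Int.fract (2 ^ n * u) + s) + t)) : ℂ)) U
        (𝓝 (Real.cos (2 * Real.pi * (2 ^ k * (1 / 15) + t)) : ℂ)) := by
      have h3 : Real.cos (2 * Real.pi * (2 ^ k * (1 / 15) + t)) =
          Real.cos (2 * Real.pi * (2 ^ (m + k) * (x0 + s) + t)) := by
        have h4 : 2 * Real.pi * (2 ^ (m + k) * (x0 + s) + t) =
            2 * Real.pi * (2 ^ k * (1 / 15) + t) + ((2 ^ k * q : ℤ) : ℝ) * (2 * Real.pi) := by
          have h5 : (2:ℝ) ^ (m + k) * (x0 + s) = 2 ^ k * (1 / 15 + q) := by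
            rw [← hs1, pow_add]; ring
          rw [h5]; push_cast; ring
        rw [h4, Real.cos_add_int_mul_two_pi]
      rw [h3]
      have h6 : Tendsto (fun n : ℕ => Real.cos (2 * Real.pi * (2 ^ (m + k) *
          (Int.fract (2 ^ n * u) + s) + t))) U
          (𝓝 (Real.cos (2 * Real.pi * (2 ^ (m + k) * (x0 + s) + t)))) := by
        apply (Real.continuous_cos.tendsto _).comp
        exact (((hx0t.add_const s).const_mul _).add_const t).const_mul _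
      exact (Complex.continuous_ofReal.tendsto _).comp h6
    have e2 : Tendsto (fun n : ℕ => famF α z u s (m + k) n t +
        α * (Real.cos (2 * Real.pi * (2 ^ (m + k) * (Int.fract (2 ^ n * u) + s) + t)) : ℂ) *
        famF α z u s (m + k) n t * (1 - famF α z u s (m + k) n t)) U
        (𝓝 (G k t + α * (Real.cos (2 * Real.pi * (2 ^ k * (1 / 15) + t)) : ℂ) * G k t *
          (1 - G k t))) :=
      (hGt k t ht).add (((ec.const_mul _).mul (hGt k t ht)).mul ((hGt k t ht).const_sub 1))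
    refine tendsto_nhds_unique e1 (e2.congr ?_)
    intro n
    exact (famF_rec z u s (m + k) n t).symm
  -- the Taylor bound
  obtain ⟨a, C, hC0, hC⟩ : ∃ (a : ℂ) (C : ℝ), 0 ≤ C ∧ ∀ t : ℝ, |t| ≤ r0 / 2 * 2 ^ (m + 0) →
      ‖G 0 t - G 0 0 - a * t‖ ≤ C * t ^ 2 := by
    obtain ⟨D, C, hC0, hC⟩ := famF_c11 hα.le hr0 hr01 z u s hs2 (m + 0)
    obtain ⟨b, hb⟩ : ∃ b : ℕ → ℂ, ∀ᶠ n in (U : Filter ℕ), ‖b n‖ ≤ D ∧
        ∀ x : ℝ, |x| ≤ r0 / 2 * 2 ^ (m + 0) →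
        ‖famF α z u s (m + 0) n x - famF α z u s (m + 0) n 0 - b n * x‖ ≤ C * x ^ 2 := by
      classical
      refine ⟨fun n => if h : Tame α (leafV α z u n) r0 then (hC n h).choose else 0, ?_⟩
      filter_upwards [hUT] with n hn
      simp only [dif_pos hn]
      exact (hC n hn).choose_spec
    obtain ⟨a, -, hle⟩ := (isCompact_closedBall (0:ℂ) D).ultrafilter_le_nhds (U.map b) (by
      rw [le_principal_iff]
      show b ⁻¹' _ ∈ U
      filter_upwards [hb] with n hn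
      simpa using hn.1)
    have ha : Tendsto b U (𝓝 a) := hle
    refine ⟨a, C, hC0, fun t ht => ?_⟩
    have hz : |(0:ℝ)| ≤ r0 / 2 * 2 ^ (m + 0) := by rw [abs_zero]; positivity
    refine le_of_tendsto (((hGt 0 t ht).sub (hGt 0 0 hz)).sub (ha.mul_const (t:ℂ))).norm ?_
    filter_upwards [hb] with n hn
    exact hn.2 t ht
  refine ⟨2 ^ m * (r0 / 2), A * (31 / 20) ^ m + 1, ‖α‖ * K 0, fun k t => α * (G k t - 1 / 2),
    ?_, ?_, ?_, ?_, ?_, ?_⟩
  · positivity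
  · intro x t hx ht
    have hw := hwin 0
    rw [pow_zero, mul_one] at hw
    have : α * (G 0 x - 1 / 2) - α * (G 0 t - 1 / 2) = α * (G 0 x - G 0 t) := by ring
    rw [this, norm_mul, mul_assoc]
    gcongr
    exact hGl 0 x t (by rw [hw]; exact hx) (by rw [hw]; exact ht)
  · refine ⟨α * a, ‖α‖ * C, fun t ht => ?_⟩
    have hw := hwin 0
    rw [pow_zero, mul_one] at hw
    have : α * (G 0 t - 1 / 2) - α * (G 0 0 - 1 / 2) - α * a * t = α * (G 0 t - G 0 0 - a * t) := by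
      ring
    rw [this, norm_mul, mul_assoc]
    gcongr
    exact hC t (by rw [hw]; exact ht)
  · intro k t ht
    show α * (G (k + 1) (2 * t) - 1 / 2) = α * (G k t - 1 / 2) + _
    rw [hGr k t (by rw [hwin]; exact ht)]
    ring
  · intro k t ht
    have h3 := hGb k t (by rw [hwin]; exact ht)
    have h4 : (1:ℝ) ≤ Real.exp (A * (31 / 20) ^ (m + k)) := Real.one_le_exp (by positivity)
    have h5 : (1:ℝ) ≤ (31 / 20) ^ k := one_le_pow₀ (by norm_num)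
    have h6 : ‖G k t - 1 / 2‖ ≤ Real.exp (A * (31 / 20) ^ (m + k)) + 1 / 2 := by
      refine (norm_sub_le _ _).trans ?_
      have : ‖(1 / 2 : ℂ)‖ = 1 / 2 := by norm_num
      linarith
    have h7 : (2:ℝ) ≤ Real.exp 1 := by
      have := Real.add_one_le_exp (1:ℝ); linarith
    calc ‖α * (G k t - 1 / 2)‖ = ‖α‖ * ‖G k t - 1 / 2‖ := norm_mul _ _
      _ ≤ 1 * (Real.exp (A * (31 / 20) ^ (m + k)) + 1 / 2) := by gcongr
      _ ≤ Real.exp (A * (31 / 20) ^ (m + k)) * Real.exp 1 := by nlinarith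
      _ = Real.exp (A * (31 / 20) ^ (m + k) + 1) := (Real.exp_add _ _).symm
      _ ≤ Real.exp ((A * (31 / 20) ^ m + 1) * (31 / 20) ^ k) := by
          apply Real.exp_le_exp.2
          rw [pow_add]
          linarith
  · intro ℓ hℓ
    obtain ⟨R, hR, BadN, hNB⟩ := nearB_exists hα h0 h1 z hℓ
    have hl : 0 < min ℓ 1 := lt_min hℓ one_pos
    have hll : min ℓ 1 ≤ ℓ := min_le_left _ _
    refine ⟨‖α‖ * R, by positivity, fun k a ha1 ha2 => ?_⟩
    have hev : ∀ᶠ n in (U : Filter ℕ), ∃ t ∈ Icc a (a + min ℓ 1),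
        R ≤ ‖famF α z u s (m + k) n t‖ ∧ R ≤ ‖1 - famF α z u s (m + k) n t‖ := by
      apply hUle
      set S : ℝ := 2 ^ (m + k) * |s| with hS
      have hSp : 0 ≤ S := by positivity
      obtain ⟨n₀, hn₀⟩ := hd (|a| + min ℓ 1 + S) (by positivity) (min ℓ 1 / 4) (by positivity)
      refine mem_atTop_sets.2 ⟨n₀, fun n hn => ?_⟩
      have hp : (0:ℝ) < 2 ^ (n + (m + k)) := by positivity
      obtain ⟨t, ht, h3, h4⟩ := hNB.exists_pt2 hl (c := u + 2 ^ (m + k) * s / 2 ^ (n + (m + k)))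
        (S := S) (a := a) (hn₀ (n + (m + k)) (by omega)) (by
          rw [add_sub_cancel_left, abs_div, abs_mul, abs_of_pos hp,
            abs_of_pos (by positivity : (0:ℝ) < 2 ^ (m + k))]) le_rfl
      refine ⟨t, ht, ?_⟩
      have e : famF α z u s (m + k) n t =
          O α 2 (n + (m + k)) (((u + 2 ^ (m + k) * s / 2 ^ (n + (m + k)) : ℝ) : ℂ) +
            t / 2 ^ (n + (m + k))) z := by
        unfold famF leafV
        congr 1
        push_cast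
        ring
      rw [e]
      exact ⟨h3, h4⟩
    have ha1' : -(r0 / 2 * 2 ^ (m + k)) ≤ a := by rw [hwin]; exact ha1
    have ha2' : a + min ℓ 1 ≤ r0 / 2 * 2 ^ (m + k) := by rw [hwin]; linarith
    constructor
    · obtain ⟨t, ht, h⟩ := hGn k a (a + min ℓ 1) R 1 ha1' ha2' (by
        filter_upwards [hev] with n hn
        obtain ⟨t, ht, h3, h4⟩ := hn
        exact ⟨t, ht, by rw [norm_sub_rev]; exact h4⟩)
      refine ⟨t, ⟨ht.1, ht.2.trans (by linarith)⟩, ?_⟩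
      have : α * (G k t - 1 / 2) - α / 2 = α * (G k t - 1) := by ring
      show ‖α‖ * R ≤ ‖α * (G k t - 1 / 2) - α / 2‖
      rw [this, norm_mul]
      gcongr
    · obtain ⟨t, ht, h⟩ := hGn k a (a + min ℓ 1) R 0 ha1' ha2' (by
        filter_upwards [hev] with n hn
        obtain ⟨t, ht, h3, h4⟩ := hn
        exact ⟨t, ht, by simpa using h3⟩)
      refine ⟨t, ⟨ht.1, ht.2.trans (by linarith)⟩, ?_⟩
      have : α * (G k t - 1 / 2) + α / 2 = α * (G k t - 0) := by ring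
      show ‖α‖ * R ≤ ‖α * (G k t - 1 / 2) + α / 2‖
      rw [this, norm_mul]
      gcongr

end Pool.Agent.W_MP_4481e3_an
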