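import Pool.Agent.W_4481e3_q25.TreeR
import Pool.Agent.W_4481e3_h58.RdrK
import Pool.Agent.W_4481e3_h6.EvS

/-!
Kill certificate, format RT: the tree function of the data modules.
-/

namespace Pool.Agent.W_4481e3_q25.EvR

open Pool.Agent.W_4481e3_h58.Hdr (rdr)

/-- the traps of `RdrSnd.lean` (the same terms as `tp0`, `tp3` there) -/
noncomputable def tr0 (X Hx Y Hy A B R : ℕ) : Bool := rdr X Hx Y Hy (fun f _ => f A B R)
noncomputable def tr3 (X Hx Y Hy A B R : ℕ) : Bool := rdr X Hx Y Hy (fun _ g => g A B R)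

/-- the leaves: table `T`, `K = 16 kap`, `TAU = 2^34 tau`, range `A1`, `A2` of the slope at the time
`0` (scale `2^14`) -/
noncomputable def lfR (T K TAU A1 A2 : ℕ) : ℕ → CF (ℕ → ℕ) :=
  lf tr0 tr3 (Pool.Agent.W_4481e3_h6.Ev.gs A1 A2) T K TAU

/-- the tree of one row -/
noncomputable def goR (T K TAU A1 A2 : ℕ) : ℕ → CF (ℕ → ℕ) := go gf gf (lfR T K TAU A1 A2)

/-- what a data module states, one row -/
noncomputable def ckR (T K TAU A1 A2 d X Hx Y Hy A B px py F G P Q qx qy n : ℕ) : Bool :=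
  Nat.ble 1 (goR T K TAU A1 A2 d X Hx Y Hy A B px py F G P Q qx qy n)

/-- the tree of an octave with the rows `(K1, A1, Am)`, `(K2, Am, A2)` -/
noncomputable def goO (T K1 K2 TAU A1 Am A2 : ℕ) : ℕ → CF (ℕ → ℕ) :=
  go (goR T K1 TAU A1 Am 200) (goR T K2 TAU Am A2 200) (lfR T K2 TAU A1 A2)

/-- what a data module states, octave -/
noncomputable def ckO (T K1 K2 TAU A1 Am A2 d X Hx Y Hy A B px py F G P Q qx qy n : ℕ) : Bool :=
  Nat.ble 1 (goO T K1 K2 TAU A1 Am A2 d X Hx Y Hy A B px py F G P Q qx qy n)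

end Pool.Agent.W_4481e3_q25.EvR
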