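import Pool.Agent.W_4481e3_q25.TreeSnd
import Pool.Agent.W_4481e3_q87.GoR

/-!
Kill certificate, format RT: skeleton nodes with explicit numbers and one Boolean condition.
-/

namespace Pool.Agent.W_4481e3_q25.EvR

open Pool.Agent.W_4481e3_q12.Ev (ds ds_cast)

variable {S : ℂ → ℂ → ℂ → Prop} {X Hx Y Hy A B px py F G P Q qx qy : ℕ}

/-- conjunction of Booleans -/
def an (a b : Bool) : Bool := Bool.rec false b a

lemma an_true {a b : Bool} : an a b = true ↔ a = true ∧ b = true := by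
  cases a <;> cases b <;> simp [an]

lemma eq_of_beq {a b : ℕ} (h : Nat.beq a b = true) : a = b := Nat.eq_of_beq_eq_true h

theorem CovS.swx' (k : ℕ) {a1 a2 : ℕ}
    (h : an (Nat.ble px (2 * k)) (an (Nat.ble k A) (an (Nat.beq a1 (A - k)) (Nat.beq a2 (A + k)))) = true)
    (c1 : CovS S X Hx Y Hy a1 B k py F G P Q qx qy)
    (c2 : CovS S X Hx Y Hy a2 B k py F G P Q qx qy) :
    CovS S X Hx Y Hy A B px py F G P Q qx qy := by
  simp only [an_true] at h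
  obtain ⟨h1, h2, h3, h4⟩ := h
  rw [eq_of_beq h3] at c1; rw [eq_of_beq h4] at c2
  exact CovS.swx (Nat.le_of_ble_eq_true h1) (Nat.le_of_ble_eq_true h2) c1 c2

theorem CovS.swy' (k : ℕ) {a1 a2 : ℕ}
    (h : an (Nat.ble py (2 * k)) (an (Nat.ble k B) (an (Nat.beq a1 (B - k)) (Nat.beq a2 (B + k)))) = true)
    (c1 : CovS S X Hx Y Hy A a1 px k F G P Q qx qy)
    (c2 : CovS S X Hx Y Hy A a2 px k F G P Q qx qy) :
    CovS S X Hx Y Hy A B px py F G P Q qx qy := by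
  simp only [an_true] at h
  obtain ⟨h1, h2, h3, h4⟩ := h
  rw [eq_of_beq h3] at c1; rw [eq_of_beq h4] at c2
  exact CovS.swy (Nat.le_of_ble_eq_true h1) (Nat.le_of_ble_eq_true h2) c1 c2

theorem CovS.sax' (k : ℕ) {a1 a2 : ℕ}
    (h : an (Nat.ble qx (2 * k)) (an (Nat.ble k P) (an (Nat.beq a1 (P - k)) (Nat.beq a2 (P + k)))) = true)
    (c1 : CovS S X Hx Y Hy A B px py F G a1 Q k qy)
    (c2 : CovS S X Hx Y Hy A B px py F G a2 Q k qy) :
    CovS S X Hx Y Hy A B px py F G P Q qx qy := by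
  simp only [an_true] at h
  obtain ⟨h1, h2, h3, h4⟩ := h
  rw [eq_of_beq h3] at c1; rw [eq_of_beq h4] at c2
  exact CovS.sax (Nat.le_of_ble_eq_true h1) (Nat.le_of_ble_eq_true h2) c1 c2

theorem CovS.say' (k : ℕ) {a1 a2 : ℕ}
    (h : an (Nat.ble qy (2 * k)) (an (Nat.ble k Q) (an (Nat.beq a1 (Q - k)) (Nat.beq a2 (Q + k)))) = true)
    (c1 : CovS S X Hx Y Hy A B px py F G P a1 qx k)
    (c2 : CovS S X Hx Y Hy A B px py F G P a2 qx k) :
    CovS S X Hx Y Hy A B px py F G P Q qx qy := by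
  simp only [an_true] at h
  obtain ⟨h1, h2, h3, h4⟩ := h
  rw [eq_of_beq h3] at c1; rw [eq_of_beq h4] at c2
  exact CovS.say (Nat.le_of_ble_eq_true h1) (Nat.le_of_ble_eq_true h2) c1 c2

theorem CovS.sex' (k : ℕ) {a1 a2 b1 b2 d1 d2 e1 e2 : ℕ}
    (h : an (Nat.ble Hx (2 * k)) (an (Nat.ble k X) (an (Nat.ble 1 (dn A F k)) (an (Nat.ble 1 (dn B G k))
      (an (Nat.ble 1 (up A F k)) (an (Nat.ble 1 (up B G k))
      (an (Nat.beq a1 (X - k)) (an (Nat.beq a2 (X + k))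
      (an (Nat.beq b1 (dn A F k)) (an (Nat.beq b2 (up A F k))
      (an (Nat.beq d1 (dn B G k)) (an (Nat.beq d2 (up B G k))
      (an (Nat.beq e1 (px + 1)) (Nat.beq e2 (py + 1)))))))))))))) = true)
    (c1 : CovS S a1 k Y Hy b1 d1 e1 e2 F G P Q qx qy)
    (c2 : CovS S a2 k Y Hy b2 d2 e1 e2 F G P Q qx qy) :
    CovS S X Hx Y Hy A B px py F G P Q qx qy := by
  simp only [an_true] at h
  obtain ⟨h1, h2, g1, g2, g3, g4, h5, h6, h7, h8, h9, h10, h11, h12⟩ := h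
  rw [eq_of_beq h5, eq_of_beq h7, eq_of_beq h9, eq_of_beq h11, eq_of_beq h12] at c1
  rw [eq_of_beq h6, eq_of_beq h8, eq_of_beq h10, eq_of_beq h11, eq_of_beq h12] at c2
  exact CovS.sex (Nat.le_of_ble_eq_true h1) (Nat.le_of_ble_eq_true h2) (Nat.le_of_ble_eq_true g1)
    (Nat.le_of_ble_eq_true g2) (Nat.le_of_ble_eq_true g3) (Nat.le_of_ble_eq_true g4) c1 c2

theorem CovS.sey' (k : ℕ) {a1 a2 b1 b2 d1 d2 e1 e2 : ℕ}
    (h : an (Nat.ble Hy (2 * k)) (an (Nat.ble k Y) (an (Nat.ble 1 (up A G k)) (an (Nat.ble 1 (dn B F k))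
      (an (Nat.ble 1 (dn A G k)) (an (Nat.ble 1 (up B F k))
      (an (Nat.beq a1 (Y - k)) (an (Nat.beq a2 (Y + k))
      (an (Nat.beq b1 (up A G k)) (an (Nat.beq b2 (dn A G k))
      (an (Nat.beq d1 (dn B F k)) (an (Nat.beq d2 (up B F k))
      (an (Nat.beq e1 (px + 1)) (Nat.beq e2 (py + 1)))))))))))))) = true)
    (c1 : CovS S X Hx a1 k b1 d1 e1 e2 F G P Q qx qy)
    (c2 : CovS S X Hx a2 k b2 d2 e1 e2 F G P Q qx qy) :
    CovS S X Hx Y Hy A B px py F G P Q qx qy := by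
  simp only [an_true] at h
  obtain ⟨h1, h2, g1, g2, g3, g4, h5, h6, h7, h8, h9, h10, h11, h12⟩ := h
  rw [eq_of_beq h5, eq_of_beq h7, eq_of_beq h9, eq_of_beq h11, eq_of_beq h12] at c1
  rw [eq_of_beq h6, eq_of_beq h8, eq_of_beq h10, eq_of_beq h11, eq_of_beq h12] at c2
  exact CovS.sey (Nat.le_of_ble_eq_true h1) (Nat.le_of_ble_eq_true h2) (Nat.le_of_ble_eq_true g1)
    (Nat.le_of_ble_eq_true g2) (Nat.le_of_ble_eq_true g3) (Nat.le_of_ble_eq_true g4) c1 c2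

theorem CovS.rs' (F' G' : ℕ) {e1 e2 : ℕ}
    (h : an (Nat.beq e1 (px + ((ds F F' * Hx + ds G G' * Hy) / 65536 + 1)))
      (Nat.beq e2 (py + ((ds G G' * Hx + ds F F' * Hy) / 65536 + 1))) = true)
    (c : CovS S X Hx Y Hy A B e1 e2 F' G' P Q qx qy) :
    CovS S X Hx Y Hy A B px py F G P Q qx qy := by
  rw [an_true] at h
  rw [eq_of_beq h.1, eq_of_beq h.2] at c
  exact CovS.rs rfl rfl c

end Pool.Agent.W_4481e3_q25.EvR
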