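import Pool.Agent.W_4481e3_q25.RootR
import Pool.Agent.W_4481e3_q87.Pack

/-!
Kill certificate, format RT: the data theorems `ckR`, `ckO` give the statement on the cell.
-/

namespace Pool.Agent.W_4481e3_q25.EvR

/-- states of one row -/
abbrev Sr := Sta

/-- states of an octave of two rows -/
abbrev So := Oct

variable {X Hx Y Hy A B px py F G P Q qx qy : ℕ}

/-- the hypotheses on the leaves -/
structure LeafOK (T : ℕ) : Prop where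
  h0 : Tp0OK tr0
  h3 : Tp3OK tr3
  hg : ∀ K TAU A1 A2 : ℕ, GsOK K TAU A1 A2 (Pool.Agent.W_4481e3_h6.Ev.gs A1 A2)
  hT : TabOK T

theorem goR_ok {T : ℕ} (hL : LeafOK T) {K TAU A1 A2 : ℕ} (hA2 : A2 ≤ 16500000) (d : ℕ) :
    FnOK (Sr K TAU A1 A2) (goR T K TAU A1 A2 d) :=
  go_sound Sta.rg (fun _ _ _ h => Or.inl h) (gf_ok _) (gf_ok (Sta K TAU A1 A2))
    (fun m => lf_ok hL.h0 hL.h3 (hL.hg K TAU A1 A2) hA2 hL.hT m) d

theorem goO_ok {T : ℕ} (hL : LeafOK T) {K1 K2 TAU A1 Am A2 : ℕ} (hK : K1 ≤ K2) (h1 : A1 ≤ Am)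
    (h2 : Am ≤ A2) (hA2 : A2 ≤ 16500000) (d : ℕ) :
    FnOK (So K1 K2 TAU A1 Am A2) (goO T K1 K2 TAU A1 Am A2 d) :=
  go_sound Oct.rg (fun _ _ _ h => h) (goR_ok hL (h2.trans hA2) 200) (goR_ok hL hA2 200)
    (fun m => (lf_ok hL.h0 hL.h3 (hL.hg K2 TAU A1 A2) hA2 hL.hT m).anti
      (fun _ _ _ h => Oct.sta hK h1 h2 h)) d

/-- **one row** -/
theorem covS_of_ckR {T K TAU A1 A2 d n : ℕ} (hL : LeafOK T) (hA2 : Nat.ble A2 16500000 = true)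
    (h : ckR T K TAU A1 A2 d X Hx Y Hy A B px py F G P Q qx qy n = true) :
    CovS (Sr K TAU A1 A2) X Hx Y Hy A B px py F G P Q qx qy :=
  (goR_ok hL (Nat.le_of_ble_eq_true hA2) d _ _ _ _ _ _ _ _ _ _ _ _ _ _ _
    (Nat.one_le_iff_ne_zero.1 (Nat.le_of_ble_eq_true h))).2

/-- **an octave** -/
theorem covS_of_ckO {T K1 K2 TAU A1 Am A2 d n : ℕ} (hL : LeafOK T)
    (hc : an (Nat.ble K1 K2) (an (Nat.ble A1 Am) (an (Nat.ble Am A2) (Nat.ble A2 16500000))) = true)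
    (h : ckO T K1 K2 TAU A1 Am A2 d X Hx Y Hy A B px py F G P Q qx qy n = true) :
    CovS (So K1 K2 TAU A1 Am A2) X Hx Y Hy A B px py F G P Q qx qy := by
  simp only [an_true] at hc
  exact (goO_ok hL (Nat.le_of_ble_eq_true hc.1) (Nat.le_of_ble_eq_true hc.2.1)
    (Nat.le_of_ble_eq_true hc.2.2.1) (Nat.le_of_ble_eq_true hc.2.2.2) d _ _ _ _ _ _ _ _ _ _ _ _ _ _ _
    (Nat.one_le_iff_ne_zero.1 (Nat.le_of_ble_eq_true h))).2

/-- range split -/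
theorem CovS.rg' {K1 K2 TAU A1 Am A2 : ℕ}
    (c1 : CovS (Sr K1 TAU A1 Am) X Hx Y Hy A B px py F G P Q qx qy)
    (c2 : CovS (Sr K2 TAU Am A2) X Hx Y Hy A B px py F G P Q qx qy) :
    CovS (So K1 K2 TAU A1 Am A2) X Hx Y Hy A B px py F G P Q qx qy := by
  intro E W a' hs hc
  rcases hs with h | h
  · exact c1 E W a' h hc
  · exact c2 E W a' h hc

end Pool.Agent.W_4481e3_q25.EvR
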