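import Pool.Agent.W_4481e3_h6.Grow
import Pool.Agent.W_MP_4481e3_low.LeafLim
import Pool.Agent.W_MP_4481e3_an.Star

/-!
The final limit passage for `L = 2`: preparations.
-/

open MeasureTheory Filter Topology Set

namespace Pool.Agent.W_MP_4481e3_an

variable {α : ℂ} {L : ℕ}

/-- clamping to `[-T, T]` -/
noncomputable def clT (T t : ℝ) : ℝ := max (-T) (min T t)

lemma clT_eq {T t : ℝ} (h : |t| ≤ T) : clT T t = t := by
  have := abs_le.1 h
  unfold clT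
  rw [min_eq_right this.2, max_eq_right this.1]

lemma clT_abs {T : ℝ} (hT : 0 ≤ T) (t : ℝ) : |clT T t| ≤ T := by
  unfold clT
  rw [abs_le]
  constructor
  · exact le_max_left _ _
  · exact max_le (by linarith) (min_le_left _ _)

lemma clT_lip (T s t : ℝ) : |clT T s - clT T t| ≤ |s - t| := by
  unfold clT
  refine (abs_max_sub_max_le_max _ _ _ _).trans ?_
  rw [sub_self, abs_zero]
  refine max_le (abs_nonneg _) ?_
  refine (abs_min_sub_min_le_max _ _ _ _).trans ?_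
  rw [sub_self, abs_zero]
  exact max_le (abs_nonneg _) le_rfl

/-- compactness along an ultrafilter on an interval -/
lemma fam_pack (U : Ultrafilter ℕ) {F : ℕ → ℝ → ℂ} {P K T : ℝ} (hT : 0 ≤ T) (hK : 0 ≤ K)
    (hb : ∀ᶠ n in (U : Filter ℕ), ∀ t, |t| ≤ T → ‖F n t‖ ≤ P)
    (hl : ∀ᶠ n in (U : Filter ℕ), ∀ s t, |s| ≤ T → |t| ≤ T → ‖F n s - F n t‖ ≤ K * |s - t|) :
    ∃ G : ℝ → ℂ, (∀ t, |t| ≤ T → Tendsto (fun n => F n t) U (𝓝 (G t))) ∧
      (∀ s t, |s| ≤ T → |t| ≤ T → ‖G s - G t‖ ≤ K * |s - t|) ∧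
      (∀ (a b R : ℝ) (p : ℂ), -T ≤ a → b ≤ T →
        (∀ᶠ n in (U : Filter ℕ), ∃ t ∈ Icc a b, R ≤ ‖F n t - p‖) →
        ∃ t ∈ Icc a b, R ≤ ‖G t - p‖) := by
  obtain ⟨G, h1, -, h3, h4⟩ := ultra_pack U (F := fun n t => F n (clT T t)) (P := P) (K := K)
    (fun t => by
      filter_upwards [hb] with n hn
      exact hn _ (clT_abs hT t))
    (fun _ => by
      filter_upwards [hl] with n hn s t _ _
      refine (hn _ _ (clT_abs hT s) (clT_abs hT t)).trans ?_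
      exact mul_le_mul_of_nonneg_left (clT_lip T s t) hK)
  refine ⟨G, fun t ht => ?_, fun s t _ _ => h3 s t, fun a b R p ha hb' hev => ?_⟩
  · have := h1 t
    simpa only [clT_eq ht] using this
  · apply h4 a b R p
    filter_upwards [hev] with n hn
    obtain ⟨t, ht, hR⟩ := hn
    refine ⟨t, ht, ?_⟩
    have : |t| ≤ T := abs_le.2 ⟨ha.trans ht.1, ht.2.trans hb'⟩
    simpa only [clT_eq this] using hR

lemma deriv_bd {g : ℂ → ℂ} (hg : Differentiable ℂ g) {B ρ r : ℝ} (hr : 0 < r)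
    (hb : ∀ s : ℂ, ‖s‖ ≤ ρ → ‖g s‖ ≤ B) {x : ℂ} (hx : ‖x‖ + r ≤ ρ) : ‖deriv g x‖ ≤ B / r := by
  apply Complex.norm_deriv_le_of_forall_mem_sphere_norm_le hr hg.diffContOnCl
  intro w hw
  apply hb
  have h1 : ‖w - x‖ = r := by simpa [dist_eq_norm] using hw
  have h2 : w = x + (w - x) := by ring
  rw [h2]
  refine (norm_add_le _ _).trans ?_
  linarith

lemma diff_deriv {g : ℂ → ℂ} (hg : Differentiable ℂ g) : Differentiable ℂ (deriv g) := by
  have h : DifferentiableOn ℂ (deriv g) univ := (hg.differentiableOn (s := univ)).deriv isOpen_univ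
  exact differentiableOn_univ.1 h

lemma lip_of_bd {g : ℂ → ℂ} (hg : Differentiable ℂ g) {B ρ r : ℝ} (hr : 0 < r)
    (hb : ∀ s : ℂ, ‖s‖ ≤ ρ → ‖g s‖ ≤ B) {x y : ℂ} (hx : ‖x‖ + r ≤ ρ) (hy : ‖y‖ + r ≤ ρ) :
    ‖g x - g y‖ ≤ B / r * ‖x - y‖ := by
  have hconv : Convex ℝ (Metric.closedBall (0:ℂ) (ρ - r)) := convex_closedBall _ _
  refine hconv.norm_image_sub_le_of_norm_deriv_le (f := g) (C := B / r)
    (fun z _ => hg z) ?_ ?_ ?_
  · intro z hz
    rw [mem_closedBall_zero_iff] at hz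
    exact deriv_bd hg hr hb (by linarith)
  · rw [mem_closedBall_zero_iff]; linarith
  · rw [mem_closedBall_zero_iff]; linarith

lemma c11_of_bd {g : ℂ → ℂ} (hg : Differentiable ℂ g) {B ρ r : ℝ} (hr : 0 < r)
    (hb : ∀ s : ℂ, ‖s‖ ≤ ρ → ‖g s‖ ≤ B) {x t : ℂ} (hx : ‖x‖ + ‖t‖ + 2 * r ≤ ρ) :
    ‖g (x + t) - g x - deriv g x * t‖ ≤ B / r / r * ‖t‖ ^ 2 := by
  have hB0 : 0 ≤ B := (norm_nonneg _).trans (hb 0 (by
    rw [norm_zero]
    have := norm_nonneg x
    have := norm_nonneg t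
    linarith))
  -- bound on the derivative
  have h1 : ∀ s : ℂ, ‖s‖ ≤ ρ - r → ‖deriv g s‖ ≤ B / r := fun s hs => deriv_bd hg hr hb (by linarith)
  have h2 := diff_deriv hg
  set h : ℂ → ℂ := fun w => g w - deriv g x * w with hh
  have hhd : Differentiable ℂ h := hg.sub (differentiable_id.const_mul _)
  have hderiv : ∀ w, deriv h w = deriv g w - deriv g x := by
    intro w
    have e1 : HasDerivAt h (deriv g w - deriv g x * 1) w :=
      (hg w).hasDerivAt.sub ((hasDerivAt_id w).const_mul _)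
    rw [e1.deriv, mul_one]
  have hconv : Convex ℝ (Metric.closedBall x ‖t‖) := convex_closedBall _ _
  have key := hconv.norm_image_sub_le_of_norm_deriv_le (f := h) (C := B / r / r * ‖t‖)
    (fun z _ => hhd z) (by
      intro w hw
      rw [mem_closedBall_iff_norm] at hw
      rw [hderiv]
      have hw2 : ‖w‖ ≤ ‖x‖ + ‖t‖ := by
        have : w = x + (w - x) := by ring
        rw [this]
        exact (norm_add_le _ _).trans (by linarith)
      have := lip_of_bd h2 hr h1 (x := w) (y := x) (by linarith) (by linarith [norm_nonneg t])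
      refine this.trans ?_
      gcongr) (x := x) (y := x + t) (Metric.mem_closedBall_self (norm_nonneg _)) (by
        rw [mem_closedBall_iff_norm, add_sub_cancel_left])
  have e1 : h (x + t) - h x = g (x + t) - g x - deriv g x * t := by
    rw [hh]; ring
  rw [e1, add_sub_cancel_left] at key
  refine key.trans (le_of_eq ?_)
  ring

lemma NearB.exists_pt2 {z : ℂ} {ℓ R : ℝ} {Nc BadN : Set ℝ} (hN : NearB α 2 z ℓ R Nc BadN)
    (hℓ : 0 < ℓ) {u₀ T S c : ℝ} {n : ℕ} (hn : volume (Nc ∩ Metric.closedBall u₀ (T / 2 ^ n)) ≤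
      ENNReal.ofReal (ℓ / 4 / 2 ^ n)) (hc : |c - u₀| ≤ S / 2 ^ n) {a : ℝ}
    (ha : |a| + ℓ + S ≤ T) :
    ∃ t ∈ Icc a (a + ℓ), R ≤ ‖O α 2 n (c + t / 2 ^ n) z‖ ∧
      R ≤ ‖1 - O α 2 n (c + t / 2 ^ n) z‖ := by
  have hLn : (0:ℝ) < 2 ^ n := by positivity
  by_contra hcon
  push Not at hcon
  have hsub : Icc a (a + ℓ) ⊆
      ((fun t : ℝ => c + ((2:ℝ) ^ n)⁻¹ * t) ⁻¹' (Nc ∩ Metric.closedBall u₀ (T / 2 ^ n))) ∪
      ((fun t : ℝ => (2:ℝ)^n * c + 1 * t) ⁻¹'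
        (BadN ∩ Icc ((2:ℝ)^n * c + a) ((2:ℝ)^n * c + a + ℓ))) := by
    intro t ht
    by_contra hcon2
    rw [mem_union, not_or] at hcon2
    obtain ⟨h1, h2⟩ := hcon2
    have hcast : (c : ℂ) + t / 2 ^ n = ((c + ((2:ℝ) ^ n)⁻¹ * t : ℝ) : ℂ) := by
      push_cast; rw [div_eq_inv_mul]
    have htabs : |t| ≤ |a| + ℓ := by
      have h1 := neg_abs_le a
      have h2 := le_abs_self a
      rw [abs_le]; constructor <;> linarith [ht.1, ht.2]
    have h3 : c + ((2:ℝ) ^ n)⁻¹ * t ∉ Nc := by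
      intro h
      apply h1
      refine ⟨h, ?_⟩
      rw [Metric.mem_closedBall, Real.dist_eq]
      have : c + ((2:ℝ) ^ n)⁻¹ * t - u₀ = (c - u₀) + ((2:ℝ) ^ n)⁻¹ * t := by ring
      rw [this]
      refine (abs_add_le _ _).trans ?_
      rw [abs_mul, abs_of_pos (inv_pos.2 hLn)]
      calc |c - u₀| + ((2:ℝ) ^ n)⁻¹ * |t| ≤ S / 2 ^ n + ((2:ℝ) ^ n)⁻¹ * (|a| + ℓ) := by gcongr
        _ = (|a| + ℓ + S) / 2 ^ n := by field_simp; ring
        _ ≤ T / 2 ^ n := by gcongr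
    have h4 : (2 : ℝ) ^ n * (c + ((2:ℝ) ^ n)⁻¹ * t) ∉ BadN := by
      intro h
      apply h2
      have h5 : (2 : ℝ) ^ n * (c + ((2:ℝ) ^ n)⁻¹ * t) = (2:ℝ)^n * c + 1 * t := by
        field_simp
      rw [h5] at h
      refine ⟨h, ?_⟩
      constructor <;> linarith [ht.1, ht.2]
    have h6 := hN.near n _ h3 (by push_cast; exact h4)
    have h7 := hcon t ht
    rw [hcast] at h7
    exact absurd h6.2 (not_le.2 (h7 h6.1))
  have h8 := (measure_mono hsub).trans (measure_union_le (μ := volume) _ _)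
  rw [vol_affine _ (inv_pos.2 hLn), vol_affine _ one_pos, inv_inv, inv_one, ENNReal.ofReal_one,
    one_mul, Real.volume_Icc] at h8
  have h9 : ENNReal.ofReal ((2:ℝ) ^ n) * volume (Nc ∩ Metric.closedBall u₀ (T / 2 ^ n)) ≤
      ENNReal.ofReal (ℓ / 4) := by
    refine (mul_le_mul_right hn _).trans ?_
    rw [← ENNReal.ofReal_mul hLn.le]
    apply ENNReal.ofReal_le_ofReal
    apply le_of_eq
    field_simp
  have h10 := h8.trans (add_le_add h9 (hN.bad _))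
  rw [← ENNReal.ofReal_add (by positivity) (by positivity),
    ENNReal.ofReal_le_ofReal_iff (by positivity)] at h10
  linarith

/-- the near set data for the set of points which do not fall -/
lemma nearB_exists (hα : ‖α‖ < 1) (h0 : ∫ x in (0:ℝ)..1, logf α x < 0)
    (h1 : ∫ x in (0:ℝ)..1, logf (-α) x < 0) (z : ℂ) {ℓ : ℝ} (hℓ : 0 < ℓ) :
    ∃ R > (0:ℝ), ∃ BadN : Set ℝ, NearB α 2 z (min ℓ 1) R (Fall α 2 z) BadN := by
  have hα' : ‖-α‖ < 1 := by rw [norm_neg]; exact hα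
  obtain ⟨c₀, hc₀, hF₀⟩ := logf_ae (L := 2) hα le_rfl h0
  obtain ⟨c₁, hc₁, hF₁⟩ := logf_ae (L := 2) hα' le_rfl h1
  set ℓ' := min ℓ 1 with hℓ'
  have hl : 0 < ℓ' := lt_min hℓ one_pos
  have hl1 : ℓ' ≤ 1 := min_le_right _ _
  obtain ⟨A₀, hA₀⟩ := hF₀.vol (δ := ℓ' / 8) (by positivity)
  obtain ⟨A₁, hA₁⟩ := hF₁.vol (δ := ℓ' / 8) (by positivity)
  have hR₀ := RR_pos hα hc₀ A₀
  have hR₁ := RR_pos hα' hc₁ A₁
  refine ⟨min (RR α c₀ A₀) (RR (-α) c₁ A₁), lt_min hR₀ hR₁,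
    (goodZero α 2 c₀ A₀)ᶜ ∪ (goodZero (-α) 2 c₁ A₁)ᶜ, ?_, ?_⟩
  · intro n u hu hb
    rw [mem_union, not_or, notMem_compl_iff, notMem_compl_iff] at hb
    constructor
    · by_contra hc
      push Not at hc
      exact hu (fall_zero hα hc₀ hb.1 (hc.le.trans (min_le_left _ _)))
    · by_contra hc
      push Not at hc
      exact hu (fall_one hα hc₁ hb.2 (hc.le.trans (min_le_right _ _)))
  · intro a
    have hv : ∀ a : ℝ, volume (((goodZero α 2 c₀ A₀)ᶜ ∪ (goodZero (-α) 2 c₁ A₁)ᶜ) ∩ Ioc a (a + 1)) ≤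
        ENNReal.ofReal (ℓ' / 2) := by
      intro a
      rw [union_inter_distrib_right]
      refine (measure_union_le _ _).trans ((add_le_add (hA₀ a) (hA₁ a)).trans ?_)
      rw [← ENNReal.ofReal_add (by positivity) (by positivity)]
      apply ENNReal.ofReal_le_ofReal
      linarith
    refine (measure_mono ?_).trans (vol_Icc_le hv a)
    apply inter_subset_inter_right
    exact Icc_subset_Icc_right (by linarith)

/-- the density data -/
lemma dens_exists (hα0 : α ≠ 0) {z : ℂ} {u : ℝ}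
    (hd : ∀ T > (0:ℝ), ∀ δ > (0:ℝ), ∃ n₀ : ℕ, ∀ n ≥ n₀,
      volume (Fall α 2 z ∩ Metric.closedBall u (T / 2 ^ n)) ≤ ENNReal.ofReal (δ / 2 ^ n)) :
    ∃ ρ : ℝ, 1 ≤ ρ ∧ Dens α 2 z u ρ (Fall α 2 z) (badInf 2 (1 / 4000)) := by
  have hαpos : 0 < ‖α‖ := norm_pos_iff.2 hα0
  refine ⟨1 + 3 / (‖α‖ * (1 / 4000)), ?_, ?_, ?_, ?_⟩
  · have : 0 < 3 / (‖α‖ * (1 / 4000)) := by positivity
    linarith
  · intro n v hv hb
    by_contra hc
    push Not at hc
    exact hv (fall_inf hα0 (by norm_num) le_rfl hb hc.le)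
  · intro a
    refine (badInf_vol_Icc (by norm_num) (by norm_num) a).trans ?_
    apply ENNReal.ofReal_le_ofReal
    norm_num
  · intro T hT δ hδ
    obtain ⟨n₀, h⟩ := hd T hT δ hδ
    exact ⟨n₀, fun n hn => by simpa using h n hn⟩

end Pool.Agent.W_MP_4481e3_an
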